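import Pool.Agent.Helper47.EX.Defs

/-! EX-1: crude equidistribution of `3 ^ hh g / 2 ^ g` along `g = i m`. -/

set_option autoImplicit false

namespace Pool.Agent.Helper87.EX

open Pool.Agent.Helper47.EX Finset

theorem th_mem (g : ℕ) : 1 / 3 < th g ∧ th g ≤ 1 := by
  have h1 : 3 ^ hh g ≤ 2 ^ g := Nat.pow_log_le_self 3 (by positivity)
  have h2 : 2 ^ g < 3 ^ (hh g + 1) := Nat.lt_pow_succ_log_self (by norm_num) _
  have h1' : (3 : ℝ) ^ hh g ≤ 2 ^ g := by exact_mod_cast h1
  have h2' : (2 : ℝ) ^ g < 3 ^ (hh g + 1) := by exact_mod_cast h2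
  have h3 : (0 : ℝ) < 2 ^ g := by positivity
  unfold th
  constructor
  · rw [lt_div_iff₀ h3]
    rw [pow_succ] at h2'
    linarith
  · rw [div_le_one h3]
    exact h1'

theorem log_th (g : ℕ) : Real.log (th g) = hh g * Real.log 3 - g * Real.log 2 := by
  unfold th
  rw [Real.log_div (by positivity) (by positivity), Real.log_pow, Real.log_pow]

theorem irr (m : ℕ) (hm : 1 ≤ m) : Irrational ((m : ℝ) * (Real.log 2 / Real.log 3)) := by
  have l2 : 0 < Real.log 2 := Real.log_pos (by norm_num)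
  have l3 : 0 < Real.log 3 := Real.log_pos (by norm_num)
  rintro ⟨r, hr⟩
  have hm' : (0 : ℝ) < m := by exact_mod_cast hm
  have hpos : (0 : ℝ) < r := by rw [hr]; positivity
  have hrpos : 0 < r := by exact_mod_cast hpos
  have hnum : 0 < r.num := Rat.num_pos.2 hrpos
  obtain ⟨a, ha⟩ := Int.eq_ofNat_of_zero_le hnum.le
  have hr2 : (r : ℝ) = (a : ℝ) / (r.den : ℝ) := by
    have : (r : ℝ) = (r.num : ℝ) / (r.den : ℝ) := by exact_mod_cast (Rat.num_div_den r).symm
    rw [this, ha, Int.cast_natCast]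
  have hden : (0 : ℝ) < r.den := by exact_mod_cast r.den_pos
  rw [hr2] at hr
  have h1 : (a : ℝ) * Real.log 3 = (m * r.den : ℕ) * Real.log 2 := by
    push_cast
    field_simp at hr
    linarith
  rw [← Real.log_pow, ← Real.log_pow] at h1
  have h2 : (3 : ℝ) ^ a = 2 ^ (m * r.den) :=
    Real.log_injOn_pos (by simp) (by simp) h1
  have h3 : 3 ^ a = 2 ^ (m * r.den) := by exact_mod_cast h2
  have h4 : Odd (3 ^ a) := Odd.pow (by decide)
  have h5 : Even (2 ^ (m * r.den)) :=
    (Nat.even_pow' (by have := r.den_pos; positivity)).2 (by decide)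
  rw [h3] at h4
  exact (Nat.not_even_iff_odd.2 h4) h5

theorem exists_den (ξ : ℝ) (hξ : Irrational ξ) (Q : ℕ) :
    ∃ r : ℚ, Q ≤ r.den ∧ |ξ - r| < 1 / (r.den : ℝ) ^ 2 := by
  have h1 := Real.infinite_rat_abs_sub_lt_one_div_den_sq_of_irrational hξ
  obtain ⟨N, hN⟩ := exists_nat_gt ((|ξ| + 1) * Q)
  have h2 : {r : ℚ | r.den < Q ∧ |ξ - r| < 1}.Finite := by
    have h3 : ((Finset.Icc (-(N : ℤ)) N ×ˢ Finset.range Q).image
        (fun p : ℤ × ℕ => (p.1 : ℚ) / (p.2 : ℚ)) : Set ℚ).Finite := Finset.finite_toSet _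
    refine h3.subset ?_
    rintro r ⟨hr1, hr2⟩
    simp only [Finset.coe_image, Set.mem_image, Finset.coe_product, Set.mem_prod, Finset.mem_coe,
      Finset.mem_Icc, Finset.mem_range]
    refine ⟨(r.num, r.den), ⟨?_, hr1⟩, Rat.num_div_den r⟩
    have hden : (0 : ℝ) < r.den := by exact_mod_cast r.den_pos
    have h4 : (r : ℝ) = (r.num : ℝ) / (r.den : ℝ) := by exact_mod_cast (Rat.num_div_den r).symm
    have h5 : |(r : ℝ)| < |ξ| + 1 := by
      have := abs_sub_abs_le_abs_sub (r : ℝ) ξ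
      rw [abs_sub_comm] at this
      linarith
    have h6 : |(r.num : ℝ)| < N := by
      have : (r.num : ℝ) = r * r.den := by rw [h4]; field_simp
      rw [this, abs_mul, abs_of_pos hden]
      refine lt_trans ?_ hN
      have hQ : (r.den : ℝ) < Q := by exact_mod_cast hr1
      have h0 : 0 ≤ |(r : ℝ)| := abs_nonneg _
      nlinarith
    have h7 := abs_lt.1 h6
    constructor
    · have : (-(N : ℤ) : ℝ) < r.num := by push_cast; exact h7.1
      exact_mod_cast this.le
    · exact_mod_cast h7.2.le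
  obtain ⟨r, hr1, hr2⟩ := (h1.sdiff h2).nonempty
  refine ⟨r, ?_, hr1⟩
  by_contra h3
  push Not at h3
  apply hr2
  refine ⟨h3, lt_of_lt_of_le hr1 ?_⟩
  have : (1 : ℝ) ≤ r.den := by exact_mod_cast r.den_pos
  rw [div_le_one (by positivity)]
  nlinarith

theorem exists_sep (ξ : ℝ) (hξ : Irrational ξ) (Q : ℕ) :
    ∃ q : ℕ, Q ≤ q ∧ 0 < q ∧ ∀ j : ℕ, 0 < j → 2 * j < q → ∀ H : ℤ,
      1 / (2 * (q : ℝ)) ≤ |(j : ℝ) * ξ - H| := by
  obtain ⟨r, hr1, hr2⟩ := exists_den ξ hξ Q
  refine ⟨r.den, hr1, r.den_pos, ?_⟩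
  intro j hj hjq H
  have hden : (0 : ℝ) < r.den := by exact_mod_cast r.den_pos
  have h4 : (r : ℝ) = (r.num : ℝ) / (r.den : ℝ) := by exact_mod_cast (Rat.num_div_den r).symm
  have h5 : (1 : ℝ) ≤ |(j : ℝ) * r.num - r.den * H| := by
    have h6 : (j : ℤ) * r.num - r.den * H ≠ 0 := by
      intro h7
      have h8 : (r.den : ℤ) ∣ (j : ℤ) * r.num := ⟨H, by linarith⟩
      have h9 : IsCoprime (r.den : ℤ) r.num := by
        have := r.reduced
        rw [Int.isCoprime_iff_gcd_eq_one]
        rw [Int.gcd_comm]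
        simpa [Int.gcd, Nat.Coprime] using this
      have h10 : (r.den : ℤ) ∣ (j : ℤ) := h9.dvd_of_dvd_mul_right h8
      have h11 : r.den ∣ j := by exact_mod_cast h10
      have := Nat.le_of_dvd hj h11
      omega
    have h7 : (1 : ℤ) ≤ |(j : ℤ) * r.num - r.den * H| := Int.one_le_abs h6
    exact_mod_cast h7
  have h6 : (j : ℝ) * ξ - H = ((j : ℝ) * r.num - r.den * H) / r.den + j * (ξ - r) := by
    rw [h4]
    field_simp
    ring
  have h7 : |(j : ℝ) * (ξ - r)| ≤ 1 / (2 * (r.den : ℝ)) := by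
    rw [abs_mul, abs_of_nonneg (by positivity : (0 : ℝ) ≤ j)]
    have hj2 : (2 : ℝ) * j ≤ r.den := by exact_mod_cast hjq.le
    calc (j : ℝ) * |ξ - r| ≤ (r.den / 2) * (1 / (r.den : ℝ) ^ 2) := by
          refine mul_le_mul (by linarith) hr2.le (abs_nonneg _) (by positivity)
      _ = 1 / (2 * (r.den : ℝ)) := by field_simp
  have h8 : 1 / (r.den : ℝ) ≤ |((j : ℝ) * r.num - r.den * H) / r.den| := by
    rw [abs_div, abs_of_pos hden]
    exact div_le_div_of_nonneg_right h5 hden.le
  have h9 := abs_sub_abs_le_abs_add (((j : ℝ) * r.num - r.den * H) / r.den) (j * (ξ - r))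
  rw [h6]
  have h10 : 1 / (r.den : ℝ) = 1 / (2 * (r.den : ℝ)) + 1 / (2 * (r.den : ℝ)) := by
    field_simp
    norm_num
  linarith

theorem count (m : ℕ) (q : ℕ) (hq : 2 ≤ q)
    (hsep : ∀ j : ℕ, 0 < j → 2 * j < q → ∀ H : ℤ,
      1 / (2 * (q : ℝ)) ≤ |(j : ℝ) * ((m : ℝ) * (Real.log 2 / Real.log 3)) - H|)
    (c δ : ℝ) (hc : 1 / 3 ≤ c) (hδ : 0 < δ) (n : ℕ) :
    (((range n).filter (fun i => c ≤ th (i * m) ∧ th (i * m) ≤ c + δ)).card : ℝ) ≤
      (3 * n / q + 1) * (6 * q * δ + 1) := by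
  classical
  have l2 : 0 < Real.log 2 := Real.log_pos (by norm_num)
  have l3 : 0 < Real.log 3 := Real.log_pos (by norm_num)
  have l3' : 1 ≤ Real.log 3 := by
    rw [Real.le_log_iff_exp_le (by norm_num)]
    have := Real.exp_one_lt_d9
    linarith
  have hqpos : (0 : ℝ) < q := by exact_mod_cast (by omega : 0 < q)
  have hc0 : 0 < c := by linarith
  set h : ℕ := q / 2 with hh0
  have hh1 : 1 ≤ h := by omega
  set L : ℕ → ℝ := fun i => Real.log (th (i * m)) with hL
  set F : ℕ → ℕ := fun i => ⌊(L i - Real.log c) * (2 * q / Real.log 3)⌋₊ with hF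
  set A := (range n).filter (fun i => c ≤ th (i * m) ∧ th (i * m) ≤ c + δ) with hA
  have hLc : ∀ i ∈ A, 0 ≤ L i - Real.log c ∧ L i - Real.log c ≤ 3 * δ := by
    intro i hi
    rw [hA, mem_filter] at hi
    obtain ⟨_, h1, h2⟩ := hi
    have hth : 0 < th (i * m) := lt_of_lt_of_le hc0 h1
    constructor
    · have := Real.log_le_log hc0 h1
      simp only [hL]
      linarith
    · simp only [hL]
      rw [← Real.log_div hth.ne' hc0.ne']
      have h3 := Real.log_le_sub_one_of_pos (div_pos hth hc0)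
      have h4 : th (i * m) / c ≤ 1 + 3 * δ := by
        rw [div_le_iff₀ hc0]
        nlinarith
      linarith
  have hmaps : ∀ i ∈ A, (i / h, F i) ∈ range (n / h + 1) ×ˢ range (⌊6 * q * δ⌋₊ + 1) := by
    intro i hi
    have h1 := hLc i hi
    rw [hA, mem_filter, mem_range] at hi
    rw [mem_product, mem_range, mem_range]
    constructor
    · exact Nat.lt_succ_of_le (Nat.div_le_div_right hi.1.le)
    · refine Nat.lt_succ_of_le (Nat.floor_le_floor ?_)
      calc (L i - Real.log c) * (2 * q / Real.log 3) ≤ (3 * δ) * (2 * q / 1) := by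
            refine mul_le_mul h1.2 ?_ (by positivity) (by positivity)
            exact div_le_div_of_nonneg_left (by positivity) (by norm_num) l3'
        _ = 6 * q * δ := by ring
  have key : ∀ i i' : ℕ, i ∈ A → i' ∈ A → i < i' → ¬ (i / h = i' / h ∧ F i = F i') := by
    rintro i i' hi hi' hlt ⟨h1, h2⟩
    have h3 := hLc i hi
    have h3' := hLc i' hi'
    have h4 : i' - i < h := by
      have e1 := Nat.div_add_mod i h
      have e2 := Nat.div_add_mod i' h
      have e3 := Nat.mod_lt i' (by omega : 0 < h)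
      rw [h1] at e1
      omega
    have h5 := hsep (i' - i) (by omega) (by omega)
      (((hh (i' * m) : ℤ)) - (hh (i * m) : ℤ))
    have h6 : L i' - L i = -Real.log 3 * ((((i' - i : ℕ) : ℝ)) *
        ((m : ℝ) * (Real.log 2 / Real.log 3)) - ((((hh (i' * m) : ℤ)) - (hh (i * m) : ℤ) : ℤ) : ℝ)) := by
      simp only [hL]
      rw [log_th, log_th]
      rw [Nat.cast_sub hlt.le]
      push_cast
      field_simp
      ring
    have h7 : 1 ≤ |L i' - L i| * (2 * q / Real.log 3) := by
      rw [h6, abs_mul, abs_neg, abs_of_pos l3]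
      calc (1 : ℝ) = Real.log 3 * (1 / (2 * (q : ℝ))) * (2 * q / Real.log 3) := by field_simp
        _ ≤ _ := by
          refine mul_le_mul_of_nonneg_right ?_ (by positivity)
          exact mul_le_mul_of_nonneg_left h5 l3.le
    have h8 : 0 ≤ (L i - Real.log c) * (2 * q / Real.log 3) :=
      mul_nonneg h3.1 (by positivity)
    have h8' : 0 ≤ (L i' - Real.log c) * (2 * q / Real.log 3) :=
      mul_nonneg h3'.1 (by positivity)
    have f1 := Nat.floor_le h8
    have f2 := Nat.lt_floor_add_one ((L i - Real.log c) * (2 * q / Real.log 3))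
    have f1' := Nat.floor_le h8'
    have f2' := Nat.lt_floor_add_one ((L i' - Real.log c) * (2 * q / Real.log 3))
    have h9 : ((⌊(L i - Real.log c) * (2 * q / Real.log 3)⌋₊ : ℕ) : ℝ) =
        ((⌊(L i' - Real.log c) * (2 * q / Real.log 3)⌋₊ : ℕ) : ℝ) := by
      have h2' : ⌊(L i - Real.log c) * (2 * q / Real.log 3)⌋₊ =
          ⌊(L i' - Real.log c) * (2 * q / Real.log 3)⌋₊ := h2
      rw [h2']
    have h10 : |L i' - L i| * (2 * q / Real.log 3) < 1 := by
      have e0 : 0 < 2 * (q : ℝ) / Real.log 3 := by positivity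
      rw [← abs_of_pos e0, ← abs_mul, abs_lt]
      rw [h9] at f1 f2
      constructor <;> nlinarith
    linarith
  have hcard : A.card ≤ (n / h + 1) * (⌊6 * q * δ⌋₊ + 1) := by
    have h1 : A.card ≤ (range (n / h + 1) ×ˢ range (⌊6 * q * δ⌋₊ + 1)).card := by
      refine Finset.card_le_card_of_injOn (fun i => (i / h, F i)) hmaps ?_
      intro i hi i' hi' he
      have he' : i / h = i' / h ∧ F i = F i' := by simpa using he
      by_contra hne
      rcases lt_or_gt_of_ne hne with hlt | hlt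
      · exact key i i' hi hi' hlt he'
      · exact key i' i hi' hi hlt ⟨he'.1.symm, he'.2.symm⟩
    rwa [Finset.card_product, card_range, card_range] at h1
  have hcard' : (A.card : ℝ) ≤ ((n / h : ℕ) + 1) * ((⌊6 * q * δ⌋₊ : ℕ) + 1) := by
    exact_mod_cast hcard
  have g1 : ((n / h : ℕ) : ℝ) ≤ 3 * n / q := by
    have h1 : ((n / h : ℕ) : ℝ) ≤ n / h := Nat.cast_div_le
    have h2 : (q : ℝ) ≤ 3 * h := by exact_mod_cast (by omega : q ≤ 3 * h)
    have h3 : (0 : ℝ) < h := by exact_mod_cast hh1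
    refine h1.trans ?_
    rw [div_le_div_iff₀ h3 hqpos]
    have : (0 : ℝ) ≤ n := by positivity
    nlinarith
  have g2 : ((⌊6 * q * δ⌋₊ : ℕ) : ℝ) ≤ 6 * q * δ := Nat.floor_le (by positivity)
  refine hcard'.trans ?_
  exact mul_le_mul (by linarith) (by linarith) (by positivity) (by positivity)

theorem equi (m : ℕ) (hm : 1 ≤ m) (f : ℝ → ℝ) (hf : ContinuousOn f (Set.Icc (1 / 3) 1))
    (hf0 : ∀ θ ∈ Set.Icc (1 / 3 : ℝ) 1, 0 ≤ f θ) (ε : ℝ) (hε : 0 < ε) :
    ∃ n0 : ℕ, ∀ n : ℕ, n0 ≤ n →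
      ∑ i ∈ range n, f (th (i * m)) ≤ n * (30 * (∫ θ in (1 / 3 : ℝ)..1, f θ) + ε) := by
  classical
  have huc : UniformContinuousOn f (Set.Icc (1 / 3) 1) :=
    isCompact_Icc.uniformContinuousOn_of_continuous hf
  rw [Metric.uniformContinuousOn_iff] at huc
  obtain ⟨δ₀, hδ₀, huc⟩ := huc ε hε
  obtain ⟨K, hK⟩ := exists_nat_gt (1 / δ₀)
  have hKpos : (0 : ℝ) < K := lt_trans (by positivity) hK
  have hKpos' : 0 < K := by exact_mod_cast hKpos
  set δ : ℝ := 2 / (3 * K) with hδdef
  have hδ : 0 < δ := by positivity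
  have hδ2 : δ < δ₀ := by
    rw [hδdef, div_lt_iff₀ (by positivity)]
    rw [div_lt_iff₀ hδ₀] at hK
    nlinarith
  obtain ⟨Q, hQ⟩ := exists_nat_gt (1 / (2 * δ))
  obtain ⟨q, hq1, hq2, hsep⟩ := exists_sep _ (irr m hm) (Q + 2)
  obtain ⟨n0, hn0⟩ := exists_nat_gt ((q : ℝ) + 1 / (6 * δ))
  refine ⟨n0, ?_⟩
  intro n hn
  have hqR : (0 : ℝ) < q := by exact_mod_cast hq2
  have hqQ : 1 / (2 * δ) < q := by
    refine hQ.trans ?_
    exact_mod_cast (by omega : Q < q)
  have hnn : (q : ℝ) + 1 / (6 * δ) < n := hn0.trans_le (by exact_mod_cast hn)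
  -- the count in one cell
  have hcell : ∀ c : ℝ, 1 / 3 ≤ c →
      (((range n).filter (fun i => c ≤ th (i * m) ∧ th (i * m) ≤ c + δ)).card : ℝ) ≤
        30 * n * δ := by
    intro c hc
    refine (count m q (by omega) hsep c δ hc hδ n).trans ?_
    have e1 : (3 * (n : ℝ) / q + 1) * (6 * q * δ + 1) = 18 * n * δ + 3 * n / q + 6 * q * δ + 1 := by
      field_simp
      ring
    rw [e1]
    have e2 : 3 * (n : ℝ) / q ≤ 6 * n * δ := by
      rw [div_le_iff₀ hqR]
      rw [div_lt_iff₀ (by positivity)] at hqQ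
      have : (0 : ℝ) ≤ n := by positivity
      nlinarith
    have e3 : 6 * (q : ℝ) * δ + 1 ≤ 6 * n * δ := by
      have e4 : ((q : ℝ) + 1 / (6 * δ)) * (6 * δ) ≤ n * (6 * δ) :=
        mul_le_mul_of_nonneg_right hnn.le (by positivity)
      have e5 : ((q : ℝ) + 1 / (6 * δ)) * (6 * δ) = 6 * q * δ + 1 := by
        field_simp
      linarith
    linarith
  set cc : ℕ → ℝ := fun j => 1 / 3 + j * δ with hcc
  have hccK : cc K = 1 := by
    simp only [hcc, hδdef]
    field_simp
    norm_num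
  have hcc1 : ∀ j, cc (j + 1) = cc j + δ := by
    intro j
    simp only [hcc]
    push_cast
    ring
  have hcc0 : ∀ j, 1 / 3 ≤ cc j := by
    intro j
    simp only [hcc]
    have : 0 ≤ (j : ℝ) * δ := by positivity
    linarith
  have hccle : ∀ j, j ≤ K → cc j ≤ 1 := by
    intro j hj
    rw [← hccK]
    simp only [hcc]
    have : (j : ℝ) ≤ K := by exact_mod_cast hj
    nlinarith
  set idx : ℕ → ℕ := fun i => min ⌊(th (i * m) - 1 / 3) / δ⌋₊ (K - 1) with hidx
  have hidx1 : ∀ i ∈ range n, idx i ∈ range K := by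
    intro i _
    rw [mem_range]
    simp only [hidx]
    omega
  have hidx2 : ∀ i, cc (idx i) ≤ th (i * m) ∧ th (i * m) ≤ cc (idx i) + δ := by
    intro i
    have h0 := th_mem (i * m)
    have hnn0 : 0 ≤ (th (i * m) - 1 / 3) / δ := div_nonneg (by linarith) hδ.le
    have f1 := Nat.floor_le hnn0
    have f2 := Nat.lt_floor_add_one ((th (i * m) - 1 / 3) / δ)
    rw [le_div_iff₀ hδ] at f1
    rw [div_lt_iff₀ hδ] at f2
    by_cases hle : ⌊(th (i * m) - 1 / 3) / δ⌋₊ ≤ K - 1
    · have e : idx i = ⌊(th (i * m) - 1 / 3) / δ⌋₊ := by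
        simp only [hidx]
        exact min_eq_left hle
      rw [e]
      simp only [hcc]
      constructor
      · linarith
      · nlinarith
    · push Not at hle
      have e : idx i = K - 1 := by
        simp only [hidx]
        exact min_eq_right hle.le
      rw [e]
      have e2 : cc (K - 1) + δ = 1 := by
        rw [← hcc1, Nat.sub_add_cancel hKpos', hccK]
      constructor
      · have e3 : ((K - 1 : ℕ) : ℝ) ≤ ((⌊(th (i * m) - 1 / 3) / δ⌋₊ : ℕ) : ℝ) := by
          exact_mod_cast hle.le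
        simp only [hcc]
        nlinarith
      · rw [e2]
        exact h0.2
  have hint : ∀ a b : ℝ, 1 / 3 ≤ a → b ≤ 1 → a ≤ b → IntervalIntegrable f MeasureTheory.volume a b := by
    intro a b ha hb hab
    refine ContinuousOn.intervalIntegrable ?_
    rw [Set.uIcc_of_le hab]
    exact hf.mono (Set.Icc_subset_Icc ha hb)
  set I : ℕ → ℝ := fun j => ∫ θ in (cc j)..(cc (j + 1)), f θ with hI
  have hI0 : ∀ j ∈ range K, 0 ≤ I j := by
    intro j hj
    rw [mem_range] at hj
    simp only [hI]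
    refine intervalIntegral.integral_nonneg ?_ ?_
    · rw [hcc1]; linarith
    · intro u hu
      refine hf0 u ⟨(hcc0 j).trans hu.1, hu.2.trans (hccle (j + 1) (by omega))⟩
  have hpt : ∀ j ∈ range K, ∀ θ, cc j ≤ θ → θ ≤ cc j + δ → f θ ≤ I j / δ + ε := by
    intro j hj θ h1 h2
    rw [mem_range] at hj
    have hle : cc j ≤ cc (j + 1) := by rw [hcc1]; linarith
    have hθ : θ ∈ Set.Icc (1 / 3 : ℝ) 1 := by
      refine ⟨(hcc0 j).trans h1, h2.trans ?_⟩
      rw [← hcc1]
      exact hccle (j + 1) (by omega)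
    have h3 : ∫ _ in (cc j)..(cc (j + 1)), (f θ - ε) ≤ I j := by
      simp only [hI]
      refine intervalIntegral.integral_mono_on hle intervalIntegrable_const
        (hint _ _ (hcc0 j) (hccle (j + 1) (by omega)) hle) ?_
      intro u hu
      have hu' : u ∈ Set.Icc (1 / 3 : ℝ) 1 :=
        ⟨(hcc0 j).trans hu.1, hu.2.trans (hccle (j + 1) (by omega))⟩
      have h4 := huc θ hθ u hu' (by
        rw [Real.dist_eq]
        rw [hcc1] at hu
        refine lt_of_le_of_lt ?_ hδ2
        rw [abs_le]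
        constructor <;> linarith [hu.1, hu.2])
      rw [Real.dist_eq] at h4
      have := (abs_lt.1 h4).2
      linarith
    rw [intervalIntegral.integral_const, smul_eq_mul, hcc1] at h3
    have h4 : f θ - ε ≤ I j / δ := by
      rw [le_div_iff₀ hδ]
      have e : cc j + δ - cc j = δ := by ring
      rw [e] at h3
      linarith
    linarith
  have hsum : ∑ i ∈ range n, f (th (i * m)) =
      ∑ j ∈ range K, ∑ i ∈ (range n).filter (fun i => idx i = j), f (th (i * m)) :=
    (Finset.sum_fiberwise_of_maps_to hidx1 _).symm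
  have hcnt : ∀ j ∈ range K, (((range n).filter (fun i => idx i = j)).card : ℝ) ≤ 30 * n * δ := by
    intro j _
    refine le_trans ?_ (hcell (cc j) (hcc0 j))
    have : ((range n).filter (fun i => idx i = j)).card ≤
        ((range n).filter (fun i => cc j ≤ th (i * m) ∧ th (i * m) ≤ cc j + δ)).card := by
      refine Finset.card_le_card ?_
      intro i hi
      rw [mem_filter] at hi ⊢
      refine ⟨hi.1, ?_⟩
      rw [← hi.2]
      exact hidx2 i
    exact_mod_cast this
  have htot : ∑ j ∈ range K, (((range n).filter (fun i => idx i = j)).card : ℝ) = n := by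
    have h1 := Finset.card_eq_sum_card_fiberwise hidx1
    rw [card_range] at h1
    exact_mod_cast h1.symm
  have hIsum : ∑ j ∈ range K, I j = ∫ θ in (1 / 3 : ℝ)..1, f θ := by
    have h1 := intervalIntegral.sum_integral_adjacent_intervals (f := f) (a := cc) (n := K)
      (μ := MeasureTheory.volume) (by
        intro k hk
        refine hint _ _ (hcc0 k) (hccle (k + 1) (by omega)) ?_
        rw [hcc1]; linarith)
    simp only [hI]
    rw [h1, hccK]
    congr 1
    simp [hcc]
  rw [hsum]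
  calc ∑ j ∈ range K, ∑ i ∈ (range n).filter (fun i => idx i = j), f (th (i * m))
      ≤ ∑ j ∈ range K, (((range n).filter (fun i => idx i = j)).card : ℝ) * (I j / δ + ε) := by
        refine Finset.sum_le_sum fun j hj => ?_
        rw [← nsmul_eq_mul]
        refine Finset.sum_le_card_nsmul _ _ _ ?_
        intro i hi
        rw [mem_filter] at hi
        have h1 := hidx2 i
        rw [hi.2] at h1
        exact hpt j hj _ h1.1 h1.2
    _ ≤ ∑ j ∈ range K, ((30 * n * δ) * (I j / δ) +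
          (((range n).filter (fun i => idx i = j)).card : ℝ) * ε) := by
        refine Finset.sum_le_sum fun j hj => ?_
        rw [mul_add]
        have h1 : 0 ≤ I j / δ := div_nonneg (hI0 j hj) hδ.le
        have := mul_le_mul_of_nonneg_right (hcnt j hj) h1
        linarith
    _ = 30 * n * ∑ j ∈ range K, I j +
          (∑ j ∈ range K, (((range n).filter (fun i => idx i = j)).card : ℝ)) * ε := by
        rw [Finset.sum_add_distrib, Finset.sum_mul, Finset.mul_sum]
        congr 1
        refine Finset.sum_congr rfl fun j _ => ?_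
        field_simp
    _ = n * (30 * (∫ θ in (1 / 3 : ℝ)..1, f θ) + ε) := by
        rw [hIsum, htot]
        ring

end Pool.Agent.Helper87.EX
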